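import Pool.Agent.H62.MP036.Conn

open MeasureTheory Set Metric Pool.Agent.H62.MP036

/-- For every convex body `K` in `E^d` and every `1 ≤ i ≤ d - 1`, the maximum `c_i(K)` of
`vol (conv (K ∪ σ_L K)) / vol K` over the `i`-dimensional affine subspaces `L` meeting `K` exists,
and it equals `1 + 2 κ_{d-1} / κ_d` if and only if `K` is a closed Euclidean ball. -/
theorem Pool.Agent.Results.MP_036dc9_gt.ReflHullEquality.result
    (d i : ℕ) (hi : 1 ≤ i) (hid : i < d) (K : Set (EuclideanSpace ℝ (Fin d)))
    (hK : IsCompact K) (hK' : Convex ℝ K) (hint : (interior K).Nonempty) :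
    ∃ c : ℝ, IsGreatest (reflRatios i K) c ∧
      (c = 1 + 2 * kappa (d - 1) / kappa d ↔ ∃ x r, K = closedBall x r) :=
  eq_thm d i hi hid K hK hK' hint
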